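import Pool.Agent.Lib.MP_a31e1e_gt.Interfaces

/-!
# Modules BORDID and SIGDER of project TIGHT (MP_a31e1e_gt)
-/

open scoped ContDiff Manifold Topology RealInnerProductSpace
open Set Metric

namespace Pool.Agent.Tight.H29

open Pool.Agent.Tight

theorem bordId_alg (X Y W q m : ℝ) (h1 : 4 - 3 * (X ^ 2 + Y ^ 2) - (Y ^ 3 - 3 * X ^ 2 * Y) = q ^ 2)
    (h2 : W ^ 2 + 3 * (X ^ 2 + Y ^ 2) - 9 = -4 * q) (hm : m = -4 * q) :
    (12 * m * X + 96 * X - 96 * X * Y) ^ 2 *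
        ((72 * Y ^ 2 + 12 * m + 96 + 96 * Y) * (8 * W ^ 2 + 4 * m) - (24 * Y * W) ^ 2)
      + (12 * m * Y + 96 * Y + 48 * Y ^ 2 - 48 * X ^ 2) ^ 2 *
        ((72 * X ^ 2 + 12 * m + 96 - 96 * Y) * (8 * W ^ 2 + 4 * m) - (24 * X * W) ^ 2)
      + (4 * m * W) ^ 2 *
        ((72 * X ^ 2 + 12 * m + 96 - 96 * Y) * (72 * Y ^ 2 + 12 * m + 96 + 96 * Y)
          - (72 * X * Y - 96 * X) ^ 2)
      + 2 * (12 * m * X + 96 * X - 96 * X * Y) * (12 * m * Y + 96 * Y + 48 * Y ^ 2 - 48 * X ^ 2) *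
        ((24 * X * W) * (24 * Y * W) - (72 * X * Y - 96 * X) * (8 * W ^ 2 + 4 * m))
      + 2 * (12 * m * X + 96 * X - 96 * X * Y) * (4 * m * W) *
        ((72 * X * Y - 96 * X) * (24 * Y * W)
          - (24 * X * W) * (72 * Y ^ 2 + 12 * m + 96 + 96 * Y))
      + 2 * (12 * m * Y + 96 * Y + 48 * Y ^ 2 - 48 * X ^ 2) * (4 * m * W) *
        ((72 * X * Y - 96 * X) * (24 * X * W)
          - (24 * Y * W) * (72 * X ^ 2 + 12 * m + 96 - 96 * Y))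
      = -294912 * q *
        (18 * (X ^ 2 + Y ^ 2) ^ 2 - 2 * (10 + 29 * (2 - q) + (2 - q) ^ 2) * (X ^ 2 + Y ^ 2) +
        (2 - q) * (48 + 32 * (2 - q) + 10 * (2 - q) ^ 2 - (2 - q) ^ 3)) := by
  subst hm
  linear_combination (5308416*X^4*Y + (-884736)*X^4*q + (-5308416)*X^4 + 3538944*X^2*Y^3
      + (-1769472)*X^2*Y^2*q + (-10616832)*X^2*Y^2 + 10616832*X^2*Y*q + (-2359296)*X^2*q^2
      + (-3538944)*X^2*q + 7077888*X^2 + (-1769472)*Y^5 + (-884736)*Y^4*q + (-5308416)*Y^4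
      + (-3538944)*Y^3*q + (-2359296)*Y^2*q^2 + (-3538944)*Y^2*q + 7077888*Y^2 + 589824*q^4
      + (-2359296)*q^3 + 2359296*q^2) * h2
    - (5308416*X^4 + 10616832*X^2*Y^2 + (-7962624)*X^2*Y*q + 13271040*X^2*q + (-15925248)*X^2
      + 5308416*Y^4 + 2654208*Y^3*q + 13271040*Y^2*q + (-15925248)*Y^2 + (-2654208)*q^3
      + 14155776*q^2 + (-21233664)*q) * h1

theorem bordId : BordIdStatement := by
  intro x q h1 h2
  have h1' : 4 - 3 * (x 0 ^ 2 + x 1 ^ 2) - (x 1 ^ 3 - 3 * x 0 ^ 2 * x 1) = q ^ 2 := h1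
  have h2' : x 2 ^ 2 + 3 * (x 0 ^ 2 + x 1 ^ 2) - 9 = -4 * q := h2
  exact bordId_alg (x 0) (x 1) (x 2) q (mm x) h1' h2' h2

end Pool.Agent.Tight.H29
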