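import Pool.Agent.Lib.MP_a31e1e_gt.Interfaces

/-!
# Module DELTA of project TIGHT (MP_a31e1e_gt)
-/

open Set

namespace Pool.Agent.Tight.H29

open Pool.Agent.Tight

/-- For fixed `e` the function is decreasing in `n ≤ (1+4e)/3`; value at the end point. -/
theorem delta_large (e n : ℝ) (he0 : 0 ≤ e) (he2 : e ≤ 2) (hn : 1 ≤ n) (h : 3 * n ≤ 1 + 4 * e) :
    1 / 2 * n ≤ 18 * n ^ 2 - 2 * (10 + 29 * e + e ^ 2) * n
      + e * (48 + 32 * e + 10 * e ^ 2 - e ^ 3) := by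
  have he : 1 / 2 ≤ e := by linarith
  have hn3 : n ≤ 3 := by linarith
  -- monotonicity in `n`
  have h1 : -14 / 3 + 18 * e - 14 * e ^ 2 + 22 / 3 * e ^ 3 - e ^ 4 ≤
      18 * n ^ 2 - 2 * (10 + 29 * e + e ^ 2) * n + e * (48 + 32 * e + 10 * e ^ 2 - e ^ 3) := by
    have h2 : 0 ≤ ((1 + 4 * e) / 3 - n) *
        (2 * (10 + 29 * e + e ^ 2) - 18 * ((1 + 4 * e) / 3 + n)) := by
      apply mul_nonneg
      · linarith
      · nlinarith [sq_nonneg e]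
    nlinarith [h2]
  -- value
  have h3 : (3 : ℝ) / 2 ≤ -14 / 3 + 18 * e - 14 * e ^ 2 + 22 / 3 * e ^ 3 - e ^ 4 := by
    obtain ⟨s, hs⟩ : ∃ s, e = 1 / 2 + s := ⟨e - 1 / 2, by ring⟩
    have hs0 : 0 ≤ s := by linarith
    have hs2 : s ≤ 3 / 2 := by linarith
    subst hs
    nlinarith [mul_nonneg hs0 hs0, mul_nonneg (mul_nonneg hs0 hs0) hs0,
      mul_nonneg (mul_nonneg (mul_nonneg hs0 hs0) hs0) (sub_nonneg.2 hs2),
      mul_nonneg hs0 (sq_nonneg (s - 1 / 2)), mul_nonneg hs0 (sub_nonneg.2 hs2)]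
  linarith

theorem delta_small (e r : ℝ) (he0 : 0 ≤ e) (he2 : e ≤ 2) (hr : 0 ≤ r) (hr1 : r ≤ 1)
    (h : 3 * r ^ 2 - r ^ 3 ≤ 4 * e - e ^ 2) :
    1 / 2 * r ^ 2 ≤ 18 * (r ^ 2) ^ 2 - 2 * (10 + 29 * e + e ^ 2) * r ^ 2
      + e * (48 + 32 * e + 10 * e ^ 2 - e ^ 3) := by
  obtain ⟨e1, he1⟩ : ∃ e1 : ℝ, e1 = (3 * r ^ 2 - r ^ 3) / 4 := ⟨_, rfl⟩
  have hr2 : r ^ 2 ≤ 1 := by nlinarith
  have hr20 : 0 ≤ r ^ 2 := sq_nonneg r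
  have h1n : r ^ 2 / 2 ≤ e1 := by rw [he1]; nlinarith [mul_nonneg hr20 (sub_nonneg.2 hr1)]
  have h1e : e1 ≤ e := by rw [he1]; nlinarith [sq_nonneg e]
  have h10 : 0 ≤ e1 := by linarith
  have h12 : e1 ≤ 2 := le_trans h1e he2
  -- monotonicity in `e`
  have hm : 18 * (r ^ 2) ^ 2 - 2 * (10 + 29 * e1 + e1 ^ 2) * r ^ 2
      + e1 * (48 + 32 * e1 + 10 * e1 ^ 2 - e1 ^ 3) ≤
      18 * (r ^ 2) ^ 2 - 2 * (10 + 29 * e + e ^ 2) * r ^ 2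
      + e * (48 + 32 * e + 10 * e ^ 2 - e ^ 3) := by
    have hq : 0 ≤ (48 - 58 * r ^ 2) + (32 - 2 * r ^ 2) * (e + e1)
        + 10 * (e ^ 2 + e * e1 + e1 ^ 2) - (e ^ 3 + e ^ 2 * e1 + e * e1 ^ 2 + e1 ^ 3) := by
      have a1 : 30 * r ^ 2 ≤ (32 - 2 * r ^ 2) * (e + e1) := by
        have : r ^ 2 ≤ e + e1 := by linarith
        nlinarith
      have a2 : e ^ 3 ≤ 2 * e ^ 2 := by nlinarith [mul_nonneg (sq_nonneg e) (sub_nonneg.2 he2)]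
      have a3 : e ^ 2 * e1 ≤ 2 * e ^ 2 := by
        nlinarith [mul_nonneg (sq_nonneg e) (sub_nonneg.2 h12)]
      have a4 : e * e1 ^ 2 ≤ 2 * (e * e1) := by
        nlinarith [mul_nonneg (mul_nonneg he0 h10) (sub_nonneg.2 h12)]
      have a5 : e1 ^ 3 ≤ 2 * e1 ^ 2 := by
        nlinarith [mul_nonneg (sq_nonneg e1) (sub_nonneg.2 h12)]
      have a6 : 0 ≤ e * e1 := mul_nonneg he0 h10
      nlinarith [sq_nonneg e, sq_nonneg e1]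
    have hq2 : 0 ≤ (e - e1) * ((48 - 58 * r ^ 2) + (32 - 2 * r ^ 2) * (e + e1)
        + 10 * (e ^ 2 + e * e1 + e1 ^ 2) - (e ^ 3 + e ^ 2 * e1 + e * e1 ^ 2 + e1 ^ 3)) :=
      mul_nonneg (by linarith) hq
    linarith [hq2, show (e - e1) * ((48 - 58 * r ^ 2) + (32 - 2 * r ^ 2) * (e + e1)
        + 10 * (e ^ 2 + e * e1 + e1 ^ 2) - (e ^ 3 + e ^ 2 * e1 + e * e1 ^ 2 + e1 ^ 3)) =
        (18 * (r ^ 2) ^ 2 - 2 * (10 + 29 * e + e ^ 2) * r ^ 2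
          + e * (48 + 32 * e + 10 * e ^ 2 - e ^ 3)) -
        (18 * (r ^ 2) ^ 2 - 2 * (10 + 29 * e1 + e1 ^ 2) * r ^ 2
          + e1 * (48 + 32 * e1 + 10 * e1 ^ 2 - e1 ^ 3)) by ring]
  refine le_trans ?_ hm
  -- value at `e1`
  have hp : (1 : ℝ) / 2 ≤ 16 - 12 * r - 15 / 2 * r ^ 2 + 5 / 2 * r ^ 3 + 2 * r ^ 4 - 1 / 16 := by
    nlinarith [mul_nonneg hr (sub_nonneg.2 hr1), mul_nonneg hr20 (sub_nonneg.2 hr1),
      mul_nonneg (mul_nonneg hr hr20) (sub_nonneg.2 hr1)]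
  have hc : r ^ 6 * (3 - r) ^ 4 ≤ 16 := by
    have c1 : r * (3 - r) ≤ 2 := by nlinarith
    have c0 : 0 ≤ r * (3 - r) := mul_nonneg hr (by linarith)
    have c2 : (r * (3 - r)) ^ 4 ≤ 2 ^ 4 := pow_le_pow_left₀ c0 c1 4
    have c3 : 0 ≤ (r * (3 - r)) ^ 4 := pow_nonneg c0 4
    have : r ^ 6 * (3 - r) ^ 4 = r ^ 2 * (r * (3 - r)) ^ 4 := by ring
    rw [this]
    nlinarith
  have hd : 0 ≤ (3 * r ^ 2 - r ^ 3) ^ 2 * (11 - 5 * r) / 32 := by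
    apply div_nonneg _ (by norm_num)
    exact mul_nonneg (sq_nonneg _) (by linarith)
  have key : 18 * (r ^ 2) ^ 2 - 2 * (10 + 29 * e1 + e1 ^ 2) * r ^ 2
      + e1 * (48 + 32 * e1 + 10 * e1 ^ 2 - e1 ^ 3) =
      r ^ 2 * (16 - 12 * r - 15 / 2 * r ^ 2 + 5 / 2 * r ^ 3 + 2 * r ^ 4
        + (3 * r ^ 2 - r ^ 3) ^ 2 * (11 - 5 * r) / 32 - r ^ 6 * (3 - r) ^ 4 / 256) := by
    rw [he1]; ring
  rw [key]
  have : (1 : ℝ) / 2 ≤ 16 - 12 * r - 15 / 2 * r ^ 2 + 5 / 2 * r ^ 3 + 2 * r ^ 4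
        + (3 * r ^ 2 - r ^ 3) ^ 2 * (11 - 5 * r) / 32 - r ^ 6 * (3 - r) ^ 4 / 256 := by
    linarith
  nlinarith [mul_le_mul_of_nonneg_left this hr20]

theorem delta : DeltaStatement := by
  refine ⟨1 / 2, by norm_num, ?_⟩
  intro e n C he0 he2 hn h3 hC h1
  by_cases hn1 : 1 ≤ n
  · exact delta_large e n he0 he2 hn1 (by nlinarith)
  · push Not at hn1
    have hr := Real.sqrt_nonneg n
    have hr1 : √n ≤ 1 := Real.sqrt_le_iff.2 ⟨by norm_num, by linarith⟩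
    have hrr : √n ^ 2 = n := Real.sq_sqrt hn
    have hC' : -(√n ^ 3) ≤ C := by
      have h6 : C ^ 2 ≤ (√n ^ 3) ^ 2 := by
        have : (√n ^ 3) ^ 2 = n ^ 3 := by rw [← pow_mul, show 3 * 2 = 2 * 3 by norm_num, pow_mul, hrr]
        rw [this]; exact hC
      exact (abs_le_of_sq_le_sq' h6 (by positivity)).1
    have := delta_small e (√n) he0 he2 hr hr1 (by rw [hrr]; linarith)
    rwa [hrr] at this

end Pool.Agent.Tight.H29
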