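import Pool.Agent.Lib.MP_a31e1e_gt.Interfaces

/-!
# Module LEVELCHART of project TIGHT (MP_a31e1e_gt)

A regular level surface in `E3` is locally a parametrised surface.
-/

open scoped ContDiff Manifold Topology RealInnerProductSpace
open Set Metric

namespace Pool.Agent.Tight.H29

open Pool.Agent.Tight

/-- A projection `E3 → E2` complementing a nonzero covector. -/
theorem exists_compl_proj (L : E3 →L[ℝ] ℝ) (hL : L ≠ 0) :
    ∃ P : E3 →L[ℝ] E2, Function.Injective (P.prod L) := by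
  classical
  have hsurj : LinearMap.range (L : E3 →ₗ[ℝ] ℝ) = ⊤ := by
    have hne : (L : E3 →ₗ[ℝ] ℝ) ≠ 0 := by
      intro h
      apply hL
      ext x
      exact congrArg (fun f : E3 →ₗ[ℝ] ℝ => f _) h
    exact LinearMap.range_eq_top.2 (LinearMap.surjective hne)
  have h1 := LinearMap.finrank_range_add_finrank_ker (L : E3 →ₗ[ℝ] ℝ)
  rw [hsurj, finrank_top] at h1
  have h3 : Module.finrank ℝ E3 = 3 := by simp
  have hk : Module.finrank ℝ (LinearMap.ker (L : E3 →ₗ[ℝ] ℝ)) = Module.finrank ℝ E2 := by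
    have h2 : Module.finrank ℝ E2 = 2 := by simp
    have h4 : Module.finrank ℝ ℝ = 1 := Module.finrank_self ℝ
    omega
  let K : Submodule ℝ E3 := LinearMap.ker (L : E3 →ₗ[ℝ] ℝ)
  let e : K ≃ₗ[ℝ] E2 := LinearEquiv.ofFinrankEq _ _ hk
  let e' : K ≃L[ℝ] E2 := e.toContinuousLinearEquiv
  refine ⟨(e' : K →L[ℝ] E2).comp (K.orthogonalProjectionOnto), ?_⟩
  rw [injective_iff_map_eq_zero]
  intro x hx
  have hx1 : e' (K.orthogonalProjectionOnto x) = 0 := congrArg Prod.fst hx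
  have hx2 : L x = 0 := congrArg Prod.snd hx
  have hx3 : K.orthogonalProjectionOnto x = 0 :=
    e'.injective (a₁ := K.orthogonalProjectionOnto x) (a₂ := 0) (by rw [hx1, map_zero])
  have hxK : x ∈ K := by
    change x ∈ LinearMap.ker (L : E3 →ₗ[ℝ] ℝ)
    rw [LinearMap.mem_ker]
    exact hx2
  have := Submodule.orthogonalProjectionOnto_mem_subspace_eq_self (⟨x, hxK⟩ : K)
  simp only at this
  rw [hx3] at this
  exact (congrArg Subtype.val this).symm

/-- A linear injection `E3 → E2 × ℝ` is a continuous linear equivalence. -/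
theorem exists_equiv_of_injective (A : E3 →L[ℝ] E2 × ℝ) (hA : Function.Injective A) :
    ∃ e : E3 ≃L[ℝ] E2 × ℝ, (e : E3 →L[ℝ] E2 × ℝ) = A := by
  have hfin : Module.finrank ℝ E3 = Module.finrank ℝ (E2 × ℝ) := by
    rw [Module.finrank_prod]; simp
  let e := LinearEquiv.ofInjectiveOfFinrankEq (A : E3 →ₗ[ℝ] E2 × ℝ) hA hfin
  refine ⟨e.toContinuousLinearEquiv, ?_⟩
  ext x
  · rfl
  · rfl

theorem levelChart : LevelChartStatement := by
  intro F x₀ hF hx₀ hdF
  obtain ⟨P, hP⟩ := exists_compl_proj _ hdF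
  obtain ⟨e, he⟩ := exists_equiv_of_injective _ hP
  -- the map `G = (P, F)`
  set G : E3 → E2 × ℝ := fun x => (P x, F x) with hG
  have hGsm : ContDiff ℝ ∞ G := P.contDiff.prodMk hF
  have hFd : ∀ x, HasFDerivAt F (fderiv ℝ F x) x := fun x =>
    ((hF.differentiable (by simp)) x).hasFDerivAt
  have hGd : ∀ x, HasFDerivAt G (P.prod (fderiv ℝ F x)) x := fun x =>
    (P.hasFDerivAt).prodMk (hFd x)
  have hG0 : HasFDerivAt G (e : E3 →L[ℝ] E2 × ℝ) x₀ := by rw [he]; exact hGd x₀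
  let Φ := (hGsm.contDiffAt (x := x₀)).toOpenPartialHomeomorph G hG0 (by simp)
  have hΦ : ∀ x, Φ x = G x := fun x => rfl
  have hx₀s : x₀ ∈ Φ.source :=
    ContDiffAt.mem_toOpenPartialHomeomorph_source (hGsm.contDiffAt (x := x₀)) hG0 (by simp)
  -- the open set where the derivative is invertible
  let U : Set E3 := {x | P.prod (fderiv ℝ F x) ∈ range ((↑) : (E3 ≃L[ℝ] E2 × ℝ) → E3 →L[ℝ] E2 × ℝ)}
  have hcont : Continuous fun x => P.prod (fderiv ℝ F x) := by
    have h1 : Continuous (fderiv ℝ F) := hF.continuous_fderiv (by simp)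
    have h2 : (fun x => P.prod (fderiv ℝ F x)) = fun x => fderiv ℝ G x := by
      funext x; exact (hGd x).fderiv.symm
    rw [h2]
    exact hGsm.continuous_fderiv (by simp)
  have hU : IsOpen U := ContinuousLinearEquiv.isOpen.preimage hcont
  have hx₀U : x₀ ∈ U := ⟨e, he⟩
  let T : Set (E2 × ℝ) := Φ.target ∩ Φ.symm ⁻¹' U
  have hT : IsOpen T := Φ.symm.isOpen_inter_preimage hU
  let V : Set E2 := (fun b : E2 => (b, (0 : ℝ))) ⁻¹' T
  have hV : IsOpen V := hT.preimage (by fun_prop)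
  let φ : E2 → E3 := fun b => Φ.symm (b, 0)
  have hright : ∀ b ∈ V, G (φ b) = (b, 0) := by
    intro b hb
    have := Φ.right_inv hb.1
    exact this
  have hGx₀ : G x₀ = (P x₀, 0) := by simp [hG, hx₀]
  have haT : (P x₀, (0 : ℝ)) ∈ T := by
    refine ⟨?_, ?_⟩
    · rw [← hGx₀]; exact Φ.map_source hx₀s
    · change Φ.symm (P x₀, (0 : ℝ)) ∈ U
      rw [← hGx₀, ← hΦ, Φ.left_inv hx₀s]; exact hx₀U
  have hφa : φ (P x₀) = x₀ := by
    change Φ.symm (P x₀, (0 : ℝ)) = x₀
    rw [← hGx₀, ← hΦ, Φ.left_inv hx₀s]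
  have hsm : ∀ b ∈ V, ContDiffAt ℝ ∞ φ b := by
    intro b hb
    obtain ⟨e', he'⟩ := hb.2
    have h1 : ContDiffAt ℝ ∞ Φ.symm (b, (0 : ℝ)) := by
      refine Φ.contDiffAt_symm (f₀' := e') hb.1 ?_ ?_
      · rw [he']; exact hGd _
      · exact hGsm.contDiffAt
    exact h1.comp b (by fun_prop : ContDiffAt ℝ ∞ (fun b : E2 => (b, (0 : ℝ))) b)
  refine ⟨V, φ, P x₀, hV, haT, hφa, fun b hb => (hsm b hb).contDiffWithinAt, ?_, ?_, ?_, ?_⟩
  · intro b hb b' hb' h
    have h1 := hright b hb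
    have h2 := hright b' hb'
    rw [h, h2] at h1
    exact (congrArg Prod.fst h1).symm
  · intro b hb
    exact congrArg Prod.snd (hright b hb)
  · intro b hb
    have h1 : HasFDerivAt φ (fderiv ℝ φ b) b :=
      ((hsm b hb).differentiableAt (by simp)).hasFDerivAt
    have h2 : HasFDerivAt (fun b => P (φ b)) (P.comp (fderiv ℝ φ b)) b :=
      P.hasFDerivAt.comp b h1
    have h3 : (fun b => P (φ b)) =ᶠ[𝓝 b] id := by
      filter_upwards [hV.mem_nhds hb] with b' hb'
      exact congrArg Prod.fst (hright b' hb')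
    have h4 : HasFDerivAt (fun b => P (φ b)) (ContinuousLinearMap.id ℝ E2) b :=
      (hasFDerivAt_id b).congr_of_eventuallyEq h3
    have h5 := h2.unique h4
    intro u v huv
    have hu : P (fderiv ℝ φ b u) = u := congrArg (fun A : E2 →L[ℝ] E2 => A u) h5
    have hv : P (fderiv ℝ φ b v) = v := congrArg (fun A : E2 →L[ℝ] E2 => A v) h5
    rw [← hu, ← hv, huv]
  · intro W hWV hW
    refine ⟨Φ.source ∩ P ⁻¹' W, Φ.open_source.inter (hW.preimage P.continuous), ?_⟩
    ext x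
    constructor
    · rintro ⟨b, hb, rfl⟩
      have hbV := hWV hb
      have hr := hright b hbV
      refine ⟨⟨Φ.map_target hbV.1, ?_⟩, congrArg Prod.snd hr⟩
      change P (φ b) ∈ W
      have : P (φ b) = b := congrArg Prod.fst hr
      rw [this]; exact hb
    · rintro ⟨⟨hxs, hxW⟩, hx0⟩
      refine ⟨P x, hxW, ?_⟩
      change Φ.symm (P x, (0 : ℝ)) = x
      have : G x = (P x, 0) := by simp [hG, hx0]
      rw [← this, ← hΦ, Φ.left_inv hxs]

end Pool.Agent.Tight.H29
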