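import Pool.Agent.Lib.MP_a31e1e_gt.Interfaces

/-!
# Module SIGDER of project TIGHT (MP_a31e1e_gt): derivatives of `FS`
-/

open scoped ContDiff Manifold Topology RealInnerProductSpace
open Set Metric

namespace Pool.Agent.Tight.H29

open Pool.Agent.Tight

/-- coordinate projection -/
noncomputable def pr (i : Fin 3) : E3 →L[ℝ] ℝ := EuclideanSpace.proj i

theorem hasFDerivAt_coord (i : Fin 3) (x : E3) : HasFDerivAt (fun y : E3 => y i) (pr i) x :=
  (pr i).hasFDerivAt

theorem hasFDerivAt_FS (x : E3) :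
    HasFDerivAt FS (gFS x 0 • pr 0 + gFS x 1 • pr 1 + gFS x 2 • pr 2) x := by
  have h0 := hasFDerivAt_coord 0 x
  have h1 := hasFDerivAt_coord 1 x
  have h2 := hasFDerivAt_coord 2 x
  have hnn : HasFDerivAt nn _ x := (h0.pow 2).add (h1.pow 2)
  have hcc : HasFDerivAt cc _ x := (h1.pow 3).sub (((h0.pow 2).const_mul 3).mul h1)
  have hmm : HasFDerivAt mm _ x := ((h2.pow 2).add (hnn.const_mul 3)).sub_const 9
  have htt : HasFDerivAt tt _ x := ((hnn.const_mul 3).const_sub 4).sub hcc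
  have hFS : HasFDerivAt FS _ x := (hmm.pow 2).sub (htt.const_mul 16)
  refine hFS.congr_fderiv ?_
  ext v
  simp only [gFS, pr]
  simp
  ring

theorem fderiv_FS_apply (x : E3) (v : E3) :
    fderiv ℝ FS x v = gFS x 0 * v 0 + gFS x 1 * v 1 + gFS x 2 * v 2 := by
  rw [(hasFDerivAt_FS x).fderiv]
  simp [pr]

theorem contDiff_FS : ContDiff ℝ ∞ FS := by
  unfold FS mm tt nn cc
  fun_prop

theorem hasFDerivAt_gFS (x : E3) (v : E3) :
    HasFDerivAt (fun y => gFS y 0 * v 0 + gFS y 1 * v 1 + gFS y 2 * v 2)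
      ((hFS x 0 0 * v 0 + hFS x 0 1 * v 1 + hFS x 0 2 * v 2) • pr 0
        + (hFS x 1 0 * v 0 + hFS x 1 1 * v 1 + hFS x 1 2 * v 2) • pr 1
        + (hFS x 2 0 * v 0 + hFS x 2 1 * v 1 + hFS x 2 2 * v 2) • pr 2) x := by
  have h0 := hasFDerivAt_coord 0 x
  have h1 := hasFDerivAt_coord 1 x
  have h2 := hasFDerivAt_coord 2 x
  have hnn : HasFDerivAt nn _ x := (h0.pow 2).add (h1.pow 2)
  have hmm : HasFDerivAt mm _ x := ((h2.pow 2).add (hnn.const_mul 3)).sub_const 9
  have hg0 : HasFDerivAt (fun y : E3 => gFS y 0) _ x :=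
    (((hmm.const_mul 12).mul h0).add (h0.const_mul 96)).sub ((h0.const_mul 96).mul h1)
  have hg1 : HasFDerivAt (fun y : E3 => gFS y 1) _ x :=
    ((((hmm.const_mul 12).mul h1).add (h1.const_mul 96)).add ((h1.pow 2).const_mul 48)).sub
      ((h0.pow 2).const_mul 48)
  have hg2 : HasFDerivAt (fun y : E3 => gFS y 2) _ x := ((hmm.const_mul 4).mul h2)
  have := ((hg0.mul_const (v 0)).add (hg1.mul_const (v 1))).add (hg2.mul_const (v 2))
  refine this.congr_fderiv ?_
  ext u
  simp only [hFS, pr]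
  simp
  ring

theorem sigDer : SigDerStatement := by
  intro x
  constructor
  · intro u
    rw [fderiv_FS_apply, Fin.sum_univ_three]
  · intro u v
    have hd : DifferentiableAt ℝ (fderiv ℝ FS) x :=
      ((contDiff_FS.fderiv_right (m := ∞) (by simp)).differentiable (by simp)) x
    have h1 : D2 FS x u v = fderiv ℝ (fun y => fderiv ℝ FS y v) x u := by
      rw [fderiv_clm_apply hd (differentiableAt_const v)]
      simp [D2]
    have h2 : (fun y => fderiv ℝ FS y v) =
        fun y => gFS y 0 * v 0 + gFS y 1 * v 1 + gFS y 2 * v 2 := by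
      funext y; exact fderiv_FS_apply y v
    rw [h1, h2, (hasFDerivAt_gFS x v).fderiv]
    simp only [Fin.sum_univ_three, pr]
    simp
    ring

end Pool.Agent.Tight.H29
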